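import Pool.Agent.W774.TL.Stm

/-! Project TL (owner helper774): the first part of the one-step lemma. -/

set_option autoImplicit false

namespace Pool.Agent.W797.TL

open Set Filter Topology
open Pool.Agent.W774.TL

/-- staying in the region -/
theorem boot (l r B : ℝ) (f g : ℝ → ℝ) (hf : ContinuousOn f (Icc l r))
    (hg : ContinuousOn g (Icc l r))
    (H : ∀ τ ∈ Icc l r, (∀ s ∈ Ico l τ, |f s| < B ∧ |g s| < B) → |f τ| < B ∧ |g τ| < B) :
    ∀ τ ∈ Icc l r, |f τ| < B ∧ |g τ| < B := by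
  by_contra hcon
  push Not at hcon
  obtain ⟨τ₁, hτ₁, hbad⟩ := hcon
  have hK : IsClosed ((Icc l r ∩ (fun τ => |f τ|) ⁻¹' (Ici B)) ∪
      (Icc l r ∩ (fun τ => |g τ|) ⁻¹' (Ici B))) :=
    (hf.abs.preimage_isClosed_of_isClosed isClosed_Icc isClosed_Ici).union
      (hg.abs.preimage_isClosed_of_isClosed isClosed_Icc isClosed_Ici)
  obtain ⟨K, hKdef⟩ : ∃ K : Set ℝ, K = ((Icc l r ∩ (fun τ => |f τ|) ⁻¹' (Ici B)) ∪
      (Icc l r ∩ (fun τ => |g τ|) ⁻¹' (Ici B))) := ⟨_, rfl⟩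
  rw [← hKdef] at hK
  have hmem : ∀ τ, τ ∈ K ↔ τ ∈ Icc l r ∧ (B ≤ |f τ| ∨ B ≤ |g τ|) := by
    intro τ
    rw [hKdef]
    simp only [mem_union, mem_inter_iff, mem_preimage, mem_Ici]
    tauto
  have hsub : K ⊆ Icc l r := fun τ hτ => ((hmem τ).1 hτ).1
  have hcomp : IsCompact K := isCompact_Icc.of_isClosed_subset hK hsub
  have hne : K.Nonempty := by
    refine ⟨τ₁, (hmem τ₁).2 ⟨hτ₁, ?_⟩⟩
    by_cases h1 : |f τ₁| < B
    · exact Or.inr (hbad h1)
    · exact Or.inl (not_lt.1 h1)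
  obtain ⟨T, hT, hmin⟩ := hcomp.exists_isLeast hne
  have hTI := hsub hT
  have hgood : ∀ s ∈ Ico l T, |f s| < B ∧ |g s| < B := by
    intro s hs
    have hsI : s ∈ Icc l r := ⟨hs.1, hs.2.le.trans hTI.2⟩
    have hsK : s ∉ K := fun h => absurd (hmin h) (not_le.2 hs.2)
    rw [hmem] at hsK
    by_contra hc
    apply hsK
    refine ⟨hsI, ?_⟩
    by_cases h1 : |f s| < B
    · refine Or.inr (not_lt.1 fun h2 => hc ⟨h1, h2⟩)
    · exact Or.inl (not_lt.1 h1)
  have h3 := H T hTI hgood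
  rcases ((hmem T).1 hT).2 with h4 | h4
  · exact absurd h3.1 (not_lt.2 h4)
  · exact absurd h3.2 (not_lt.2 h4)

theorem S_abs (u : ℝ) : |S u| ≤ |u| := by
  unfold S
  have h2 : 0 < 2 * Real.pi := by positivity
  rw [abs_div, abs_of_pos h2, div_le_iff₀ h2]
  refine Real.abs_sin_le_abs.trans ?_
  rw [abs_mul, abs_of_pos h2, mul_comm]

theorem S_cube {u : ℝ} (h0 : 0 < u) (h1 : u ≤ 1 / 10) : u - 10 * u ^ 3 ≤ S u := by
  unfold S
  have h2 : 0 < 2 * Real.pi := by positivity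
  have hpi := Real.pi_lt_d2
  rw [le_div_iff₀ h2]
  have h3 : 0 < 2 * Real.pi * u := by positivity
  have h4 : 2 * Real.pi * u ≤ 1 := by nlinarith
  have h5 := Real.sin_gt_sub_cube h3
  refine le_trans ?_ h5.le
  have h6 : Real.pi ^ 2 ≤ 10 := by nlinarith [Real.pi_pos]
  have h7 : 0 < 2 * Real.pi * u ^ 3 := by positivity
  nlinarith [mul_le_mul_of_nonneg_right h6 h7.le]

theorem S_half {u : ℝ} (h0 : 0 ≤ u) (h1 : u ≤ 1 / 2 + 51 / 50000) : -(51 / 50000) ≤ S u := by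
  have h2 : 0 < 2 * Real.pi := by positivity
  by_cases hu : u ≤ 1 / 2
  · have h3 : 0 ≤ S u := by
      unfold S
      refine div_nonneg (Real.sin_nonneg_of_nonneg_of_le_pi (by positivity) ?_) h2.le
      nlinarith [Real.pi_pos]
    linarith
  · have hu' : 1 / 2 < u := not_le.1 hu
    have h3 : S u = - S (u - 1 / 2) := by
      unfold S
      have h4 : 2 * Real.pi * u = 2 * Real.pi * (u - 1 / 2) + Real.pi := by ring
      rw [h4, Real.sin_add_pi, neg_div]
    rw [h3]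
    have h4 := S_abs (u - 1 / 2)
    rw [abs_of_pos (by linarith : 0 < u - 1 / 2)] at h4
    have h5 := le_abs_self (S (u - 1 / 2))
    linarith

theorem Co_one (u : ℝ) : 1 - 20 * u ^ 2 ≤ Co u := by
  unfold Co
  have h1 := Real.one_sub_sq_div_two_le_cos (x := 2 * Real.pi * u)
  refine le_trans ?_ h1
  have hpi := Real.pi_lt_d2
  have h6 : Real.pi ^ 2 ≤ 10 := by nlinarith [Real.pi_pos]
  nlinarith [mul_le_mul_of_nonneg_right h6 (sq_nonneg u)]

theorem Co_le (u : ℝ) : Co u ≤ 1 := Real.cos_le_one _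

theorem Co_ge (u : ℝ) : -1 ≤ Co u := Real.neg_one_le_cos _

theorem sg_nonneg (y : ℝ) : 0 ≤ sg y := by
  unfold sg
  positivity

theorem sg_le (y : ℝ) : sg y ≤ Real.exp y := by
  unfold sg
  have h := Real.exp_pos y
  rw [div_le_iff₀ (by linarith)]
  nlinarith

theorem y_le {A τ a p : ℝ} (hA : 0 < A) (h1 : -1 / 2 ≤ τ) (h2 : τ ≤ -1 / 500)
    (ha : |a| ≤ 51 / 50000) (hp : |p - A * (3 / 2 + τ)| ≤ A * (51 / 50000)) :
    yy A τ a p ≤ -(A / 1000) := by
  unfold yy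
  have ha' := abs_le.1 ha
  have hp' := (abs_le.1 hp).2
  have hSa : S a ≤ 51 / 50000 := (le_abs_self _).trans ((S_abs a).trans ha)
  have key : τ + 51 / 50000 - 3 * S (a - τ) + S a ≤ -(1 / 1000) := by
    by_cases hτ : -1 / 50 ≤ τ
    · have h3 : 0 < a - τ := by linarith
      have h4 : a - τ ≤ 22 / 1000 := by linarith
      have h5 := S_cube h3 (by linarith)
      have h6 : (a - τ) ^ 3 ≤ (22 / 1000) ^ 3 := pow_le_pow_left₀ h3.le h4 3
      norm_num at h6
      nlinarith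
    · have h3 : 0 ≤ a - τ := by
        have := not_le.1 hτ
        linarith
      have h5 := S_half h3 (by linarith)
      have := not_le.1 hτ
      linarith
  have h7 : p - A * (3 / 2 + 3 * S (a - τ) - S a) ≤
      A * (τ + 51 / 50000 - 3 * S (a - τ) + S a) := by
    linarith
  refine h7.trans ?_
  have h8 := mul_le_mul_of_nonneg_left key hA.le
  linarith

theorem est {A G τ a p da dp : ℝ} (hG : 0 ≤ G) (hA : 10 ^ 10 + (1 + G) * 10 ^ 7 ≤ A)
    (h1 : -1 / 2 ≤ τ) (h2 : τ ≤ -1 / 500)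
    (ha : |a| ≤ 51 / 50000) (hp : |p - A * (3 / 2 + τ)| ≤ A * (51 / 50000))
    (h : |da - sg (yy A τ a p)| ≤ 1 / A ^ 2)
    (h' : |dp - A * ((1 - sg (yy A τ a p)) * Co a + 3 * sg (yy A τ a p) * Co (a - τ))| ≤ 1 + G) :
    |da| ≤ 1 / 100000 ∧ |dp / A - 1| ≤ 3 / 100000 := by
  have hApos : 0 < A := by
    have : 0 ≤ (1 + G) * 10 ^ 7 := by positivity
    have : (0 : ℝ) < 10 ^ 10 := by norm_num
    linarith
  have hA10 : (10 : ℝ) ^ 10 ≤ A := by
    have : 0 ≤ (1 + G) * 10 ^ 7 := by positivity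
    linarith
  have hAG : (1 + G) * 10 ^ 7 ≤ A := by
    have : (0 : ℝ) < 10 ^ 10 := by norm_num
    linarith
  obtain ⟨s, hs⟩ : ∃ s : ℝ, s = sg (yy A τ a p) := ⟨_, rfl⟩
  rw [← hs] at h h'
  have hs0 : 0 ≤ s := by rw [hs]; exact sg_nonneg _
  have hs1 : s ≤ 1 / 10 ^ 7 := by
    rw [hs]
    refine (sg_le _).trans ?_
    refine (Real.exp_le_exp.2 (y_le hApos h1 h2 ha hp)).trans ?_
    rw [Real.exp_neg, ← one_div]
    apply one_div_le_one_div_of_le (by norm_num)
    have h3 := Real.add_one_le_exp (A / 1000)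
    refine le_trans ?_ h3
    norm_num at hA10
    norm_num
    linarith
  have hA2 : 1 / A ^ 2 ≤ 1 / 10 ^ 7 := by
    apply one_div_le_one_div_of_le (by norm_num)
    have h3 : (1 : ℝ) ≤ A := by
      norm_num at hA10
      linarith
    norm_num at hA10
    nlinarith
  constructor
  · have h3 := abs_le.1 h
    rw [abs_le]
    constructor <;> linarith
  · have h3 := abs_le.1 h'
    have ha' := abs_le.1 ha
    have c1 := Co_one a
    have c2 := Co_le a
    have c3 := Co_ge a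
    have c4 := Co_le (a - τ)
    have c5 := Co_ge (a - τ)
    have ha2 : a ^ 2 ≤ (51 / 50000) ^ 2 := by
      rw [← sq_abs]
      exact pow_le_pow_left₀ (abs_nonneg _) ha 2
    have e1 : s * Co a ≤ s := by nlinarith
    have e2 : -s ≤ s * Co a := by nlinarith
    have e3 : s * Co (a - τ) ≤ s := by nlinarith
    have e4 : -s ≤ s * Co (a - τ) := by nlinarith
    have hm1 : (1 - s) * Co a + 3 * s * Co (a - τ) ≤ 1 + 4 * s := by nlinarith
    have hm2 : 1 - 22 / 1000000 - 4 * s ≤ (1 - s) * Co a + 3 * s * Co (a - τ) := by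
      norm_num at ha2
      nlinarith
    obtain ⟨m, hm⟩ : ∃ m : ℝ, m = (1 - s) * Co a + 3 * s * Co (a - τ) := ⟨_, rfl⟩
    rw [← hm] at h3 hm1 hm2
    have hG' : (1 + G) / A ≤ 1 / 10 ^ 7 := by
      rw [div_le_div_iff₀ hApos (by norm_num)]
      linarith
    have e5 : dp / A - 1 = (dp - A * m) / A + (m - 1) := by
      field_simp
      ring
    rw [e5]
    have e6 : |(dp - A * m) / A| ≤ 1 / 10 ^ 7 := by
      rw [abs_div, abs_of_pos hApos]
      refine le_trans ?_ hG'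
      exact div_le_div_of_nonneg_right (abs_le.2 h3) hApos.le
    have e7 : |m - 1| ≤ 25 / 1000000 := by
      rw [abs_le]
      norm_num at hs1
      constructor <;> linarith
    refine (abs_add_le _ _).trans ?_
    norm_num at e6
    linarith

theorem j1_thm : P_J1 := by
  intro G hG
  refine ⟨10 ^ 10 + (1 + G) * 10 ^ 7, fun A hA a p a' p' hsys ha0 hp0 => ?_⟩
  have hApos : 0 < A := by
    have : 0 ≤ (1 + G) * 10 ^ 7 := by positivity
    have : (0 : ℝ) < 10 ^ 10 := by norm_num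
    linarith
  obtain ⟨f, hf⟩ : ∃ f : ℝ → ℝ, f = fun τ => a τ - a (-1 / 2) := ⟨_, rfl⟩
  obtain ⟨g, hg⟩ : ∃ g : ℝ → ℝ, g = fun τ => (p τ - p (-1 / 2)) / A - (τ + 1 / 2) := ⟨_, rfl⟩
  have hfd : ∀ τ ∈ Icc (-1 / 2 : ℝ) (-1 / 500), HasDerivAt f (a' τ) τ := by
    intro τ hτ
    rw [hf]
    exact (hsys τ hτ).1.sub_const _
  have hgd : ∀ τ ∈ Icc (-1 / 2 : ℝ) (-1 / 500), HasDerivAt g (p' τ / A - 1) τ := by
    intro τ hτ
    rw [hg]
    exact (((hsys τ hτ).2.1.sub_const _).div_const A).sub ((hasDerivAt_id τ).add_const _)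
  have hf0 : f (-1 / 2) = 0 := by rw [hf]; simp
  have hg0 : g (-1 / 2) = 0 := by rw [hg]; norm_num
  -- the region
  have hreg : ∀ s ∈ Icc (-1 / 2 : ℝ) (-1 / 500), |f s| < 1 / 50000 ∧ |g s| < 1 / 50000 →
      |a s| ≤ 51 / 50000 ∧ |p s - A * (3 / 2 + s)| ≤ A * (51 / 50000) := by
    intro s hs hb
    obtain ⟨hb1, hb2⟩ := hb
    constructor
    · have h1 : a s = f s + a (-1 / 2) := by rw [hf]; ring
      rw [h1]
      refine (abs_add_le _ _).trans ?_
      linarith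
    · have h1 : p s - A * (3 / 2 + s) = A * g s + (p (-1 / 2) - A) := by
        rw [hg]
        field_simp
        ring
      rw [h1]
      refine (abs_add_le _ _).trans ?_
      rw [abs_mul, abs_of_pos hApos]
      have := mul_le_mul_of_nonneg_left hb2.le hApos.le
      linarith
  have hR1 : ∀ s ∈ Icc (-1 / 2 : ℝ) (-1 / 500),
      |a s| ≤ 51 / 50000 ∧ |p s - A * (3 / 2 + s)| ≤ A * (51 / 50000) → R1 A s (a s) (p s) := by
    intro s hs hb
    refine ⟨hs.1, by linarith [hs.2], by linarith [hb.1], ?_⟩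
    refine hb.2.trans ?_
    linarith
  have hall := boot (-1 / 2) (-1 / 500) (1 / 50000) f g
    (fun τ hτ => (hfd τ hτ).continuousAt.continuousWithinAt)
    (fun τ hτ => (hgd τ hτ).continuousAt.continuousWithinAt) (by
      intro τ hτ hs
      have hd : ∀ s ∈ Ico (-1 / 2 : ℝ) τ, |a' s| ≤ 1 / 100000 ∧ |p' s / A - 1| ≤ 3 / 100000 := by
        intro s hsI
        have hsI' : s ∈ Icc (-1 / 2 : ℝ) (-1 / 500) := ⟨hsI.1, hsI.2.le.trans hτ.2⟩
        have h1 := hreg s hsI' (hs s hsI)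
        have h2 := hR1 s hsI' h1
        have h3 := (hsys s hsI').2.2 (Or.inl h2)
        exact est hG hA hsI'.1 hsI'.2 h1.1 h1.2 h3.1 h3.2
      have hlt : τ - (-1 / 2) ≤ 1 / 2 := by linarith [hτ.2]
      have m1 := norm_image_sub_le_of_norm_deriv_le_segment' (f := f) (f' := a')
        (a := -1 / 2) (b := τ) (C := 1 / 100000)
        (fun x hx => (hfd x ⟨hx.1, hx.2.trans hτ.2⟩).hasDerivWithinAt)
        (fun x hx => (hd x hx).1) τ ⟨hτ.1, le_rfl⟩
      have m2 := norm_image_sub_le_of_norm_deriv_le_segment' (f := g)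
        (f' := fun x => p' x / A - 1)
        (a := -1 / 2) (b := τ) (C := 3 / 100000)
        (fun x hx => (hgd x ⟨hx.1, hx.2.trans hτ.2⟩).hasDerivWithinAt)
        (fun x hx => (hd x hx).2) τ ⟨hτ.1, le_rfl⟩
      rw [hf0, sub_zero, Real.norm_eq_abs] at m1
      rw [hg0, sub_zero, Real.norm_eq_abs] at m2
      constructor
      · linarith
      · linarith)
  refine ⟨fun τ hτ => hR1 τ hτ (hreg τ hτ (hall τ hτ)), ?_, ?_⟩
  · have h1 := (hall (-1 / 500) ⟨by norm_num, le_rfl⟩).1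
    rw [hf] at h1
    exact h1.le
  · have h1 := (hall (-1 / 500) ⟨by norm_num, le_rfl⟩).2
    have h2 : p (-1 / 500) - p (-1 / 2) - A * (1 / 2 - 1 / 500) = A * g (-1 / 500) := by
      rw [hg]
      field_simp
      ring
    rw [h2, abs_mul, abs_of_pos hApos]
    have := mul_le_mul_of_nonneg_left h1.le hApos.le
    linarith

end Pool.Agent.W797.TL
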